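import Pool.Agent.H162R3.SK.Asm
import Pool.Agent.H162R3.SK.TaskTightProof
import Pool.Agent.H162R3.SK.Cap
import Pool.Agent.H162R3.SK.Base106
import Pool.Agent.H162R3.SK.SW
import Pool.Agent.H162R3.SK.Ret162
import Pool.Agent.H162R3.SK.GN
import Pool.Agent.H978R3.SK.TaskUN
import Pool.Agent.H162R3.SK.StepH345
import Pool.Agent.H162R3.SK.Chain591
import Pool.Agent.H455R3.SK.Dens

set_option autoImplicit false

namespace Pool.Agent.Results.MP_719d1c_gt.DensityAlephOmega

/-- For every Sokolov compact Hausdorff space `X` with a dense subset of cardinality at most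
`ℵ_ω`, the space `C_p(X)` admits a continuous injection into a Σ-product of real lines. -/
theorem result :
    ∀ (X : Type) [TopologicalSpace X] [CompactSpace X] [T2Space X],
      (∃ D : Set X, Dense D ∧ Cardinal.mk D ≤ Cardinal.aleph Ordinal.omega0) →
      (∀ F : (n : ℕ) → Set (Fin n → X), (∀ n, IsClosed (F n)) →
        ∃ f : X → X, Continuous f ∧
          (∃ N : Set (Set X), N.Countable ∧
            ∀ x ∈ Set.range f, ∀ U : Set X, IsOpen U → x ∈ U →
              ∃ A ∈ N, x ∈ A ∧ A ⊆ U ∩ Set.range f) ∧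
          ∀ n, ∀ x ∈ F n, f ∘ x ∈ F n) →
      ∃ (κ : Type) (Φ : {g : X → ℝ // Continuous g} → (κ → ℝ)),
        Continuous Φ ∧ Function.Injective Φ ∧
          ∀ g, (Function.support (Φ g)).Countable := by
  intro X _ _ _ hD hS
  obtain ⟨D, hD, hDc⟩ := hD
  exact Pool.Agent.H162R3.SK.Asm.assemble
    Pool.Agent.H162R3.SK.TightN.taskTight
    Pool.Agent.H162R3.SK.taskCap
    Pool.Agent.H162R3.SK.Base106.T
    Pool.Agent.H162R3.SK.taskSW
    Pool.Agent.H162R3.SK.Ret162.taskRet
    Pool.Agent.H162R3.SK.taskGN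
    Pool.Agent.H978R3.SK.TaskUN.t
    Pool.Agent.H345SK.taskStep
    Pool.Agent.H162R3.SK.Chain591.taskChain
    Pool.Agent.H455R3.SK.taskDens X hS D hD hDc

end Pool.Agent.Results.MP_719d1c_gt.DensityAlephOmega
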